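import Mathlib
import Pool.Agent.Y494.PN.Defs

/-!
# The state sum of a graph as a sum over the labels at a vertex
-/

set_option autoImplicit false

namespace Pool.Agent.Y975.PN

open Polynomial Pool.Agent.Results.MP_daa8b9_co.PenroseMinusOne Pool.Agent.Y494.PN

variable {E : Type} [Fintype E] [DecidableEq E]

theorem bb_self (G : PlaneCubicGraph E) (p : E × Bool) {N : ℕ} (l : E × Bool → Fin N)
    (x : E × Bool) : bb G p l (fun i => l (hh G p (i + 2))) x = l (G.rot.symm x) := by
  unfold bb
  by_cases h0 : x = p
  · rw [if_pos h0, h0]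
    exact congrArg l (hh_symm G p 0).symm
  rw [if_neg h0]
  by_cases h1 : x = G.rot p
  · rw [if_pos h1, h1]
    exact congrArg l (hh_symm G p 1).symm
  rw [if_neg h1]
  by_cases h2 : x = G.rot (G.rot p)
  · rw [if_pos h2, h2]
    exact congrArg l (hh_symm G p 2).symm
  rw [if_neg h2]

theorem self_sum (G : PlaneCubicGraph E) (p : E × Bool) (N : ℕ) :
    ∑ l : E × Bool → Fin N, ∏ e : E,
      wt (l (e, false)) (l (G.rot.symm (e, false))) (l (e, true)) (l (G.rot.symm (e, true))) =
      ∑ u, ∑ v, KK G p N u v * YY N u v := by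
  have h1 : ∀ u : Fin 3 → Fin N, ∑ v, KK G p N u v * YY N u v =
      KK G p N u (fun i => u (i + 2)) := by
    intro u
    rw [Finset.sum_eq_single (fun i => u (i + 2))]
    · unfold YY
      rw [if_pos (fun i => rfl), mul_one]
    · intro v _ hv
      unfold YY
      rw [if_neg (fun h => hv (funext h)), mul_zero]
    · intro h
      exact absurd (Finset.mem_univ _) h
  rw [Finset.sum_congr rfl fun u _ => h1 u]
  unfold KK
  rw [Finset.sum_comm]
  refine Finset.sum_congr rfl fun l _ => ?_
  rw [Finset.sum_eq_single (fun i => l (hh G p i))]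
  · rw [if_pos (fun i => rfl)]
    refine Finset.prod_congr rfl fun e _ => ?_
    rw [bb_self, bb_self]
  · intro u _ hu
    rw [if_neg]
    intro h
    exact hu (funext fun i => (h i).symm)
  · intro h
    exact absurd (Finset.mem_univ _) h

end Pool.Agent.Y975.PN
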